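import Mathlib
import Pool.Agent.H805K.TLD
import Pool.Agent.H805K.Calc
import Pool.Agent.H805R2.Mat

set_option autoImplicit false

open MeasureTheory Metric Set Filter Topology
open scoped ContDiff ComplexOrder

namespace Pool.Agent.U574.CMA
open Pool.Agent.H805R2 Pool.Agent.H805K

variable {n : ℕ}

/-- global smooth extension near a compact set -/
lemma glob {Ω : Set (Cn n)} (hΩ : IsOpen Ω) {v : Cn n → ℝ} (hv : ContDiffOn ℝ ∞ v Ω)
    {K : Set (Cn n)} (hK : IsCompact K) (hKΩ : K ⊆ Ω) :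
    ∃ (U : Set (Cn n)) (w : Cn n → ℝ), IsOpen U ∧ K ⊆ U ∧ U ⊆ Ω ∧ ContDiff ℝ ∞ w ∧
      (∀ z ∈ U, w z = v z) ∧ (∀ z ∈ U, hess w z = hess v z) := by
  obtain ⟨L, hL, hKL, hLΩ⟩ := exists_compact_between hK hΩ hKΩ
  obtain ⟨χ, hχs, hχc, hχΩ, hχ1, hχ01⟩ := cutoff hL hΩ hLΩ
  have heq : ∀ z ∈ interior L, χ z * v z = v z := fun z hz => by
    rw [hχ1 z (interior_subset hz), one_mul]
  refine ⟨interior L, fun z => χ z * v z, isOpen_interior, hKL, interior_subset.trans hLΩ,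
    cutoff_mul_smooth hΩ hχs hv hχΩ, heq, ?_⟩
  intro z hz
  apply hess_congr
  filter_upwards [isOpen_interior.mem_nhds hz] with y hy
  exact heq y hy

lemma hess_comp_add (V : Cn n → ℝ) (z y : Cn n) :
    hess (fun y => V (z + y)) y = hess V (z + y) := by
  have h1 : ∀ k, (wdb k fun w => ((V (z + w) : ℝ) : ℂ)) = fun w => wdb k (fun w => ((V w : ℝ) : ℂ)) (z + w) := by
    intro k
    funext w
    simp only [wdb]
    rw [fderiv_comp_add_left (f := fun w => ((V w : ℝ) : ℂ)) z]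
  ext j k
  simp only [hess, Matrix.of_apply, wd]
  rw [h1 k, fderiv_comp_add_left (f := fun w => wdb k (fun w => ((V w : ℝ) : ℂ)) w) z]

/-- the submean inequality over balls -/
theorem ball_mean_at {Ω : Set (Cn n)} (hΩ : IsOpen Ω) {v : Cn n → ℝ} (hv : ContDiffOn ℝ ∞ v Ω)
    (hpsd : ∀ z ∈ Ω, (hess v z).PosSemidef) {z : Cn n} {η : ℝ} (hη : 0 < η)
    (hb : closedBall z η ⊆ Ω) :
    (volume (ball (0 : Cn n) η)).toReal * v z ≤ ∫ y in ball (0 : Cn n) η, v (z + y) := by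
  obtain ⟨U, w, hU, hKU, hUΩ, hw, hwv, hwh⟩ := glob hΩ hv (isCompact_closedBall z η) hb
  obtain ⟨δ, hδ, hδU⟩ := (isCompact_closedBall z η).exists_thickening_subset_open hU hKU
  rw [thickening_closedBall hδ hη.le] at hδU
  have hs : ContDiff ℝ ∞ fun y => w (z + y) := hw.comp (contDiff_const.add contDiff_id)
  have h1 := ball_mean (n := n) hs hη (show η < η + δ by linarith) (by
    intro y hy
    rw [hess_comp_add]
    have hmem : z + y ∈ U := hδU (by
      rw [mem_ball, dist_eq_norm, add_sub_cancel_left]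
      rw [mem_ball_zero_iff] at hy
      linarith)
    rw [hwh _ hmem]
    exact hpsd _ (hUΩ hmem))
  have e1 : w (z + 0) = v z := by
    rw [add_zero]; exact hwv z (hKU (mem_closedBall_self hη.le))
  rw [e1] at h1
  refine h1.trans (le_of_eq ?_)
  apply setIntegral_congr_fun measurableSet_ball
  intro y hy
  apply hwv
  apply hKU
  rw [mem_closedBall, dist_eq_norm, add_sub_cancel_left]
  rw [mem_ball_zero_iff] at hy
  exact hy.le

lemma levi_pos_of_posDef {u : Cn n → ℝ} (hu : ContDiff ℝ 2 u) {z : Cn n} (h : (hess u z).PosDef)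
    {ζ : Cn n} (hζ : ζ ≠ 0) : 0 < levi u z ζ := by
  have hne : (fun j => star (ζ j)) ≠ 0 := by
    intro h0
    apply hζ
    ext j
    have := congrFun h0 j
    simpa using this
  have := h.dotProduct_mulVec_pos hne
  rw [← levi_eq_qf hu] at this
  exact_mod_cast this

/-- maximum principle in the space variable -/
theorem max_principle (hn : 0 < n) {Ω : Set (Cn n)} (hΩ : IsOpen Ω) (hb : Bornology.IsBounded Ω)
    {v : Cn n → ℝ} (hc : ContinuousOn v (closure Ω)) (hv : ContDiffOn ℝ ∞ v Ω)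
    (hpd : ∀ z ∈ Ω, (hess v z).PosDef) {M : ℝ} (hM : ∀ z ∈ frontier Ω, v z ≤ M) :
    ∀ z ∈ closure Ω, v z ≤ M := by
  intro z hz
  have hK : IsCompact (closure Ω) := Metric.isCompact_of_isClosed_isBounded isClosed_closure hb.closure
  obtain ⟨z0, hz0, hmax⟩ := hK.exists_isMaxOn ⟨z, hz⟩ hc
  have hz0f : z0 ∈ frontier Ω := by
    by_contra hcon
    have hz0Ω : z0 ∈ Ω := by
      by_contra h
      apply hcon
      rw [hΩ.frontier_eq]
      exact ⟨hz0, h⟩
    obtain ⟨U, w, hU, hKU, hUΩ, hw, hwv, hwh⟩ := glob hΩ hv (isCompact_singleton (x := z0))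
      (singleton_subset_iff.2 hz0Ω)
    have hz0U : z0 ∈ U := hKU rfl
    have hloc : IsLocalMax w z0 := by
      filter_upwards [hU.mem_nhds hz0U] with y hy
      rw [hwv y hy, hwv z0 hz0U]
      exact hmax (subset_closure (hUΩ hy))
    have h1 := Up.levi_nonpos (hw.of_le ss_le) hloc (bas ⟨0, hn⟩)
    have h2 := levi_pos_of_posDef (hw.of_le ss_le) (z := z0) (by
      rw [hwh z0 hz0U]; exact hpd z0 hz0Ω) (ζ := bas ⟨0, hn⟩) (by
        intro h
        have := congrArg (fun x : Cn n => x ⟨0, hn⟩) h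
        simp [bas] at this)
    linarith
  exact (hmax hz).trans (hM z0 hz0f)

/-- the determinant at a maximum of `u - w` -/
theorem det_le_of_max {u w : Cn n → ℝ} (hu : ContDiff ℝ ∞ u) (hw : ContDiff ℝ ∞ w) {z : Cn n}
    (hpd : (hess u z).PosDef) (hmax : IsLocalMax (fun y => u y - w y) z) {μ : ℝ} (hμ : 0 < μ)
    (hlw : ∀ ζ, levi w z ζ ≤ μ * ‖ζ‖ ^ 2) : (hess u z).det.re ≤ μ ^ n := by
  have h1 : ∀ ζ, levi u z ζ ≤ μ * ‖ζ‖ ^ 2 := by
    intro ζ
    have h2 := Up.levi_nonpos ((hu.sub hw).of_le ss_le) hmax ζ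
    rw [levi_sub' hu hw] at h2
    linarith [hlw ζ]
  have hG : ((μ : ℂ) • (1 : Matrix (Fin n) (Fin n) ℂ)).PosDef := by
    have : (0 : ℂ) < (μ : ℂ) := by exact_mod_cast hμ
    exact Matrix.PosDef.one.smul this
  have h3 := Gram.det_mono ((μ : ℂ) • (1 : Matrix (Fin n) (Fin n) ℂ)) (hess u z) hG hpd.posSemidef (by
    intro c
    have e1 := levi_eq_qf (hu.of_le ss_le) z (WithLp.toLp 2 (fun j => star (c j)))
    simp only [star_star] at e1
    have e2 : Gram.qf (hess u z) c = ((levi u z (WithLp.toLp 2 (fun j => star (c j))) : ℝ) : ℂ) := by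
      rw [e1]; rfl
    have e3 : Gram.qf ((μ : ℂ) • (1 : Matrix (Fin n) (Fin n) ℂ)) c
        = ((μ * ‖(WithLp.toLp 2 (fun j => star (c j)) : Cn n)‖ ^ 2 : ℝ) : ℂ) := by
      rw [Gram.qf, Matrix.smul_mulVec, Matrix.one_mulVec, dotProduct_smul, EuclideanSpace.norm_sq_eq]
      push_cast
      rw [smul_eq_mul]
      congr 1
      simp only [dotProduct, Pi.star_apply, norm_star]
      apply Finset.sum_congr rfl
      intro j _
      rw [Complex.star_def, Complex.conj_mul']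
    rw [e2, e3, Complex.ofReal_re, Complex.ofReal_re]
    exact h1 _)
  rw [Matrix.det_smul, Matrix.det_one, mul_one, Fintype.card_fin] at h3
  have e4 : (((μ : ℂ)) ^ n).re = μ ^ n := by
    rw [← Complex.ofReal_pow, Complex.ofReal_re]
  rwa [e4] at h3

/-- the barrier -/
lemma levi_barrier (a z ζ : Cn n) {δ κ c : ℝ} (hδ : 0 < δ) (hκ : 0 ≤ κ) :
    levi (fun y => κ * Real.log (Up.sqd a y + δ) + c) z ζ ≤ κ / (Up.sqd a z + δ) * ‖ζ‖ ^ 2 := by
  have hN : ContDiff ℝ ∞ fun y => Up.sqd a y + δ := (Up.sqd_smooth a).add contDiff_const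
  have hpos : ∀ y, 0 < Up.sqd a y + δ := fun y => by
    have : 0 ≤ Up.sqd a y := by unfold Up.sqd; positivity
    linarith
  have hL : ContDiff ℝ ∞ fun y => Real.log (Up.sqd a y + δ) := hN.log fun y => (hpos y).ne'
  rw [levi_add' (contDiff_const.mul hL) contDiff_const, levi_const_mul' κ hL, levi_log hN z ζ (hpos z),
    levi_add' (Up.sqd_smooth a) contDiff_const, Up.sqd_levi, levi_const, levi_const]
  have h1 : 0 ≤ ‖dl (fun y => Up.sqd a y + δ) z ζ‖ ^ 2 / (Up.sqd a z + δ) ^ 2 := by positivity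
  have h2 : κ * ((‖ζ‖ ^ 2 + 0) / (Up.sqd a z + δ)
      - ‖dl (fun y => Up.sqd a y + δ) z ζ‖ ^ 2 / (Up.sqd a z + δ) ^ 2) + 0
      ≤ κ * ((‖ζ‖ ^ 2) / (Up.sqd a z + δ)) := by
    rw [add_zero, add_zero]
    apply mul_le_mul_of_nonneg_left _ hκ
    linarith
  refine h2.trans (le_of_eq ?_)
  ring

end Pool.Agent.U574.CMA
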