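import Mathlib
import Pool.Agent.H805R2.Defs

set_option autoImplicit false

open MeasureTheory Metric Set Filter Topology
open scoped ContDiff ComplexOrder

namespace Pool.Agent.U574.CMA
open Pool.Agent.H805R2

/-- `Ω` is a bounded strictly pseudoconvex domain of `ℂⁿ` with smooth boundary: it is bounded and
connected, and `Ω = {ρ < 0}` for a smooth function `ρ` which is strictly plurisubharmonic at the points
of the closure of `Ω` (its complex Hessian is positive definite there) and whose differential does not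
vanish on the boundary. -/
structure IsStrictlyPseudoconvex {n : ℕ} (Ω : Set (Cn n)) : Prop where
  bounded : Bornology.IsBounded Ω
  connected : IsConnected Ω
  defining : ∃ ρ : Cn n → ℝ, ContDiff ℝ ∞ ρ ∧ Ω = {z | ρ z < 0} ∧
    (∀ z ∈ closure Ω, (hess ρ z).PosDef) ∧ ∀ z ∈ frontier Ω, fderiv ℝ ρ z ≠ 0

/-- The data of the problem: `Ω` is a bounded strictly pseudoconvex domain with smooth boundary, `u₀` is
plurisubharmonic on a neighbourhood of its closure, and `φ` is smooth on `closure Ω × [0, T)` with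
`φ(z, t) = u₀(z)` for `z` in the boundary. -/
structure IsData {n : ℕ} (Ω : Set (Cn n)) (T : ℝ) (u₀ : Cn n → EReal) (φ : Cn n → ℝ → ℝ) :
    Prop where
  domain : IsStrictlyPseudoconvex Ω
  psh : ∃ Ω' : Set (Cn n), IsOpen Ω' ∧ closure Ω ⊆ Ω' ∧ PSH Ω' u₀
  smooth : ContDiffOn ℝ ∞ (fun p : Cn n × ℝ => φ p.1 p.2) (closure Ω ×ˢ Ico 0 T)
  agree : ∀ z ∈ frontier Ω, ∀ t ∈ Ico 0 T, ((φ z t : ℝ) : EReal) = u₀ z

/-- `u` (a function of `t` and `z`) is a solution of the flow: it is continuous on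
`(0, T) × closure Ω`, smooth on `(0, T) × Ω`, and the conditions 1-4 of the problem hold. (In the
problem `u` is smooth on `(0, T) × closure Ω`; this is more.) -/
structure IsSolution {n : ℕ} (Ω : Set (Cn n)) (T : ℝ) (u₀ : Cn n → EReal) (φ : Cn n → ℝ → ℝ)
    (u : ℝ → Cn n → ℝ) : Prop where
  continuousOn : ContinuousOn (fun p : ℝ × Cn n => u p.1 p.2) (Ioo 0 T ×ˢ closure Ω)
  smooth : ContDiffOn ℝ ∞ (fun p : ℝ × Cn n => u p.1 p.2) (Ioo 0 T ×ˢ Ω)
  spsh : ∀ t ∈ Ioo 0 T, ∀ z ∈ Ω, (hess (u t) z).PosDef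
  flow : ∀ t ∈ Ioo 0 T, ∀ z ∈ Ω, deriv (fun s => u s z) t = Real.log (hess (u t) z).det.re
  boundary : ∀ t ∈ Ioo 0 T, ∀ z ∈ frontier Ω, u t z = φ z t
  initial : ∀ z ∈ closure Ω, Tendsto (fun t => ((u t z : ℝ) : EReal)) (𝓝[>] 0) (𝓝 (u₀ z))

end Pool.Agent.U574.CMA
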