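import Pool.Agent.U574.CMA.A
import Pool.Agent.U574.CMA.Defs

set_option autoImplicit false

open MeasureTheory Metric Set Filter Topology
open scoped ContDiff ComplexOrder

namespace Pool.Agent.U574.CMA
open Pool.Agent.H805R2 Pool.Agent.H805K

variable {n : ℕ}

lemma integral_shift (F : Cn n → ℝ) (z : Cn n) (η : ℝ) :
    ∫ y in ball (0 : Cn n) η, F (z + y) = ∫ x in ball z η, F x := by
  have h := (measurePreserving_add_left volume z).setIntegral_preimage_emb
    (MeasurableEquiv.addLeft z).measurableEmbedding F (ball z η)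
  have e : (fun y => z + y) ⁻¹' ball z η = ball (0 : Cn n) η := by
    ext y
    simp [mem_ball, dist_eq_norm]
  rw [e] at h
  exact h

theorem initial_bound {Ω : Set (Cn n)} (hΩ : IsOpen Ω) {T : ℝ} (hT : 0 < T) {u : ℝ → Cn n → ℝ}
    {u₀ : Cn n → EReal} (hs : ∀ t ∈ Ioo 0 T, ContDiffOn ℝ ∞ (u t) Ω)
    (hpd : ∀ t ∈ Ioo 0 T, ∀ z ∈ Ω, (hess (u t) z).PosSemidef)
    {M : ℝ} (hM : ∀ t ∈ Ioo 0 T, ∀ z ∈ Ω, u t z ≤ M)
    (hlim : ∀ z ∈ Ω, Tendsto (fun t => ((u t z : ℝ) : EReal)) (𝓝[>] 0) (𝓝 (u₀ z)))
    {a : Cn n} {r R : ℝ} (hrR : r < R) (hR : closedBall a R ⊆ Ω)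
    {g : Cn n → ℝ} (hg : Continuous g) (hug : ∀ z ∈ closedBall a R, u₀ z ≤ ((g z : ℝ) : EReal))
    {ε : ℝ} (hε : 0 < ε) : ∀ᶠ t in 𝓝[>] (0 : ℝ), ∀ z ∈ closedBall a r, u t z ≤ g z + ε := by
  have hT' : ∀ᶠ t in 𝓝[>] (0 : ℝ), t ∈ Ioo 0 T := Ioo_mem_nhdsGT hT
  have hKc : IsCompact (closedBall a R) := isCompact_closedBall a R
  obtain ⟨η0, hη0, hu⟩ := Metric.uniformContinuousOn_iff.1
    (hKc.uniformContinuousOn_of_continuous hg.continuousOn) (ε / 2) (by linarith)
  set η := min η0 (R - r) with hη
  have hηpos : 0 < η := lt_min hη0 (by linarith)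
  have hηR : η ≤ R - r := min_le_right _ _
  obtain ⟨G, hG⟩ := hKc.exists_bound_of_continuousOn hg.continuousOn
  -- the integral tends to zero
  have hI : Tendsto (fun t => ∫ z in ball a R, max (u t z - g z) 0) (𝓝[>] 0) (𝓝 0) := by
    suffices hsuf : Tendsto (fun t => ∫ z in ball a R, max (u t z - g z) 0) (𝓝[>] 0)
        (𝓝 (∫ z in ball a R, (0 : ℝ))) by simpa using hsuf
    apply tendsto_integral_filter_of_dominated_convergence (fun _ => |M| + G)
    · filter_upwards [hT'] with t ht
      apply ContinuousOn.aestronglyMeasurable _ measurableSet_ball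
      have h1 : ContinuousOn (u t) (ball a R) :=
        (hs t ht).continuousOn.mono (ball_subset_closedBall.trans hR)
      exact (h1.sub hg.continuousOn).sup continuousOn_const
    · filter_upwards [hT'] with t ht
      filter_upwards [ae_restrict_mem measurableSet_ball] with z hz
      have hzK := ball_subset_closedBall hz
      have h1 := hM t ht z (hR hzK)
      have h2 := hG z hzK
      rw [Real.norm_eq_abs, abs_le] at h2
      have h3 := le_abs_self M
      rw [Real.norm_eq_abs, abs_of_nonneg (le_max_right _ _)]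
      have h4 := abs_nonneg M
      have h5 : 0 ≤ G := (norm_nonneg _).trans (hG z hzK)
      exact max_le (by linarith [h2.1]) (by linarith)
    · exact integrableOn_const measure_ball_lt_top.ne
    · filter_upwards [ae_restrict_mem measurableSet_ball] with z hz
      have hzK := ball_subset_closedBall hz
      rw [Metric.tendsto_nhds]
      intro e he
      have h1 : u₀ z < ((g z + e : ℝ) : EReal) :=
        (hug z hzK).trans_lt (EReal.coe_lt_coe_iff.2 (by linarith))
      filter_upwards [(hlim z (hR hzK)).eventually (gt_mem_nhds h1)] with t ht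
      have h2 : u t z < g z + e := EReal.coe_lt_coe_iff.1 ht
      rw [Real.dist_eq, sub_zero, abs_of_nonneg (le_max_right _ _)]
      exact max_lt (by linarith) he
  set V : ℝ := (volume (ball (0 : Cn n) η)).toReal with hV
  have hVpos : 0 < V := ENNReal.toReal_pos (measure_ball_pos volume 0 hηpos).ne'
    measure_ball_lt_top.ne
  have hI' : ∀ᶠ t in 𝓝[>] (0 : ℝ), ∫ z in ball a R, max (u t z - g z) 0 < V * (ε / 2) :=
    hI.eventually (gt_mem_nhds (by positivity))
  filter_upwards [hT', hI'] with t ht htI z hz
  have hsub : closedBall z η ⊆ closedBall a R := by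
    apply closedBall_subset_closedBall'
    rw [mem_closedBall] at hz
    linarith
  have h1 := ball_mean_at hΩ (hs t ht) (hpd t ht) hηpos (hsub.trans hR)
  rw [integral_shift (u t) z η] at h1
  have hcont : ContinuousOn (u t) (closedBall a R) := (hs t ht).continuousOn.mono hR
  have hcm : ContinuousOn (fun x => max (u t x - g x) 0) (closedBall a R) :=
    (hcont.sub hg.continuousOn).sup continuousOn_const
  have h2 : ∫ x in ball z η, u t x ≤ ∫ x in ball z η, (g z + ε / 2 + max (u t x - g x) 0) := by
    apply setIntegral_mono_on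
    · exact ((hcont.mono hsub).integrableOn_compact (isCompact_closedBall z η)).mono_set
        ball_subset_closedBall
    · exact (((continuousOn_const.add hcm).mono hsub).integrableOn_compact
        (isCompact_closedBall z η)).mono_set ball_subset_closedBall
    · exact measurableSet_ball
    · intro x hx
      have h3 := hu x (hsub (ball_subset_closedBall hx)) z (hsub (mem_closedBall_self hηpos.le))
        (lt_of_lt_of_le (mem_ball.1 hx) (min_le_left _ _))
      rw [Real.dist_eq, abs_lt] at h3
      have h4 := le_max_left (u t x - g x) 0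
      linarith [h3.2]
  have h3 : ∫ x in ball z η, (g z + ε / 2 + max (u t x - g x) 0)
      = V * (g z + ε / 2) + ∫ x in ball z η, max (u t x - g x) 0 := by
    rw [integral_add]
    · rw [setIntegral_const, smul_eq_mul, hV, Measure.real]
      rw [Measure.addHaar_ball_center volume z η]
    · exact integrableOn_const measure_ball_lt_top.ne
    · exact ((hcm.mono hsub).integrableOn_compact (isCompact_closedBall z η)).mono_set
        ball_subset_closedBall
  have h4 : ∫ x in ball z η, max (u t x - g x) 0 ≤ ∫ x in ball a R, max (u t x - g x) 0 := by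
    apply setIntegral_mono_set
    · exact (hcm.integrableOn_compact hKc).mono_set ball_subset_closedBall
    · exact Eventually.of_forall fun x => le_max_right _ _
    · apply LE.le.eventuallyLE
      apply ball_subset_ball'
      rw [mem_closedBall] at hz
      linarith
  have h5 : V * u t z ≤ V * (g z + ε) := by
    calc V * u t z ≤ V * (g z + ε / 2) + ∫ x in ball z η, max (u t x - g x) 0 := by
          rw [← h3]; exact h1.trans h2
      _ ≤ V * (g z + ε / 2) + V * (ε / 2) := by linarith
      _ = V * (g z + ε) := by ring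
  exact le_of_mul_le_mul_left h5 hVpos

end Pool.Agent.U574.CMA
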