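import Pool.Agent.U574.CMA.B

set_option autoImplicit false

open MeasureTheory Metric Set Filter Topology
open scoped ContDiff ComplexOrder

namespace Pool.Agent.U574.CMA
open Pool.Agent.H805R2 Pool.Agent.H805K

variable {n : ℕ}

lemma deriv_nonneg_of_max_left {f : ℝ → ℝ} {f' a b : ℝ} (hab : a < b) (hd : HasDerivAt f f' b)
    (hm : ∀ x ∈ Icc a b, f x ≤ f b) : 0 ≤ f' := by
  have h : Tendsto (slope f b) (𝓝[<] b) (𝓝 f') :=
    (hasDerivAt_iff_tendsto_slope.1 hd).mono_left (nhdsWithin_mono _ (fun x hx => ne_of_lt hx))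
  refine ge_of_tendsto h ?_
  filter_upwards [Ioo_mem_nhdsLT hab] with x hx
  rw [slope_def_field]
  apply div_nonneg_of_nonpos
  · linarith [hm x ⟨hx.1.le, hx.2.le⟩]
  · linarith [hx.2]

lemma sqd_nonneg' (a z : Cn n) : 0 ≤ Up.sqd a z := by unfold Up.sqd; positivity

/-- the parabolic comparison -/
theorem compare_step {Ω : Set (Cn n)} (hΩ : IsOpen Ω) {T : ℝ} {u : ℝ → Cn n → ℝ}
    (hs : ContDiffOn ℝ ∞ (fun p : ℝ × Cn n => u p.1 p.2) (Ioo 0 T ×ˢ Ω))
    (hpd : ∀ t ∈ Ioo 0 T, ∀ z ∈ Ω, (hess (u t) z).PosDef)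
    (hflow : ∀ t ∈ Ioo 0 T, ∀ z ∈ Ω, deriv (fun s => u s z) t = Real.log (hess (u t) z).det.re)
    {a : Cn n} {r : ℝ} (hr : closedBall a r ⊆ Ω) {s0 t1 c δ C₁ C₂ ε : ℝ} (hs0 : 0 < s0)
    (h01 : s0 < t1) (h1T : t1 < T) (hc : n * t1 < c) (hδ : 0 < δ) (hC₂ : n * Real.log c ≤ C₂)
    (hε : 0 < ε)
    (hinit : ∀ z ∈ closedBall a r,
      u s0 z ≤ (c - n * s0) * Real.log (Up.sqd a z + δ) + (C₁ + C₂ * s0) + ε)
    (hlat : ∀ t ∈ Icc s0 t1, ∀ z ∈ sphere a r,
      u t z ≤ (c - n * t) * Real.log (Up.sqd a z + δ) + (C₁ + C₂ * t)) :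
    ∀ t ∈ Icc s0 t1, ∀ z ∈ closedBall a r,
      u t z ≤ (c - n * t) * Real.log (Up.sqd a z + δ) + (C₁ + C₂ * t) + ε + ε * (t - s0) := by
  have hsm : ∀ t ∈ Ioo 0 T, ContDiffOn ℝ ∞ (u t) Ω := by
    intro t ht
    have : ContDiffOn ℝ ∞ ((fun p : ℝ × Cn n => u p.1 p.2) ∘ fun z => (t, z)) Ω :=
      hs.comp (contDiff_const.prodMk contDiff_id).contDiffOn fun z hz => ⟨ht, hz⟩
    exact this
  have hpos : ∀ z : Cn n, 0 < Up.sqd a z + δ := fun z => by linarith [sqd_nonneg' a z]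
  have hNs : ContDiff ℝ ∞ fun y : Cn n => Up.sqd a y + δ := (Up.sqd_smooth a).add contDiff_const
  have hLs : ContDiff ℝ ∞ fun y : Cn n => Real.log (Up.sqd a y + δ) := hNs.log fun y => (hpos y).ne'
  set H : ℝ × Cn n → ℝ := fun p => u p.1 p.2
    - ((c - n * p.1) * Real.log (Up.sqd a p.2 + δ) + (C₁ + C₂ * p.1)) - ε * (p.1 - s0) with hH
  intro t ht z hz
  have hK : IsCompact (Icc s0 t1 ×ˢ closedBall a r) := isCompact_Icc.prod (isCompact_closedBall a r)
  have hHc : ContinuousOn H (Icc s0 t1 ×ˢ closedBall a r) := by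
    have h1 : ContinuousOn (fun p : ℝ × Cn n => u p.1 p.2) (Icc s0 t1 ×ˢ closedBall a r) :=
      hs.continuousOn.mono (prod_mono (fun x hx => ⟨hs0.trans_le hx.1, hx.2.trans_lt h1T⟩) hr)
    have h2 : Continuous fun p : ℝ × Cn n => Real.log (Up.sqd a p.2 + δ) :=
      hLs.continuous.comp continuous_snd
    exact (h1.sub (((continuous_const.sub (continuous_const.mul continuous_fst)).mul h2).add
      (continuous_const.add (continuous_const.mul continuous_fst))).continuousOn).sub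
      (continuous_const.mul (continuous_fst.sub continuous_const)).continuousOn
  obtain ⟨⟨t2, z2⟩, ⟨ht2, hz2⟩, hmax⟩ := hK.exists_isMaxOn ⟨(t, z), ht, hz⟩ hHc
  simp only at ht2 hz2
  have hHt : H (t, z) ≤ H (t2, z2) := hmax ⟨ht, hz⟩
  suffices hsuf : H (t2, z2) ≤ ε by
    have : H (t, z) ≤ ε := hHt.trans hsuf
    simp only [hH] at this
    linarith
  have hεt : 0 ≤ ε * (t2 - s0) := mul_nonneg hε.le (by linarith [ht2.1])
  by_cases hsph : z2 ∈ sphere a r
  · have := hlat t2 ht2 z2 hsph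
    simp only [hH]
    linarith
  by_cases hts : t2 = s0
  · subst hts
    have := hinit z2 hz2
    simp only [hH]
    linarith
  exfalso
  have hts' : s0 < t2 := lt_of_le_of_ne ht2.1 (Ne.symm hts)
  have hzb : z2 ∈ ball a r := by
    rw [mem_sphere] at hsph
    rw [mem_closedBall] at hz2
    exact mem_ball.2 (lt_of_le_of_ne hz2 hsph)
  have ht2T : t2 ∈ Ioo 0 T := ⟨hs0.trans hts', ht2.2.trans_lt h1T⟩
  have hz2Ω : z2 ∈ Ω := hr hz2
  have hn0 : (0 : ℝ) ≤ n := Nat.cast_nonneg n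
  have hκ : 0 < c - n * t2 := by
    have : (n : ℝ) * t2 ≤ n * t1 := mul_le_mul_of_nonneg_left ht2.2 hn0
    linarith
  -- the determinant
  obtain ⟨U, w, hU, hKU, hUΩ, hw, hwv, hwh⟩ := glob hΩ (hsm t2 ht2T) (isCompact_singleton (x := z2))
    (singleton_subset_iff.2 hz2Ω)
  have hz2U : z2 ∈ U := hKU rfl
  have hbars : ContDiff ℝ ∞ fun y : Cn n =>
      (c - n * t2) * Real.log (Up.sqd a y + δ) + (C₁ + C₂ * t2) :=
    (contDiff_const.mul hLs).add contDiff_const
  have hloc : IsLocalMax (fun y => w y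
      - ((c - n * t2) * Real.log (Up.sqd a y + δ) + (C₁ + C₂ * t2))) z2 := by
    filter_upwards [hU.mem_nhds hz2U, isOpen_ball.mem_nhds hzb] with y hy hyb
    have h1 : H (t2, y) ≤ H (t2, z2) := hmax ⟨ht2, ball_subset_closedBall hyb⟩
    simp only [hH] at h1
    rw [hwv y hy, hwv z2 hz2U]
    linarith
  have hdet := det_le_of_max (n := n) hw hbars (z := z2) (by rw [hwh z2 hz2U]; exact hpd t2 ht2T z2 hz2Ω)
    hloc (μ := (c - n * t2) / (Up.sqd a z2 + δ)) (div_pos hκ (hpos z2))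
    (fun ζ => levi_barrier a z2 ζ hδ hκ.le)
  rw [hwh z2 hz2U] at hdet
  have hdpos : 0 < (hess (u t2) z2).det.re := by
    have := (hpd t2 ht2T z2 hz2Ω).det_pos
    rw [Complex.pos_iff] at this
    exact this.1
  have hlog : Real.log (hess (u t2) z2).det.re
      ≤ n * (Real.log (c - n * t2) - Real.log (Up.sqd a z2 + δ)) := by
    refine (Real.log_le_log hdpos hdet).trans (le_of_eq ?_)
    rw [Real.log_pow, Real.log_div hκ.ne' (hpos z2).ne']
  -- the time derivative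
  have hopen : Ioo (0 : ℝ) T ×ˢ Ω ∈ 𝓝 (t2, z2) := (isOpen_Ioo.prod hΩ).mem_nhds ⟨ht2T, hz2Ω⟩
  have hdu : DifferentiableAt ℝ (fun s => u s z2) t2 := by
    have h1 : DifferentiableAt ℝ (fun p : ℝ × Cn n => u p.1 p.2) (t2, z2) :=
      (hs.contDiffAt hopen).differentiableAt (by simp)
    have h2 : DifferentiableAt ℝ (fun s : ℝ => (s, z2)) t2 :=
      differentiableAt_id.prodMk (differentiableAt_const _)
    exact DifferentiableAt.comp (𝕜 := ℝ) (f := fun s : ℝ => (s, z2)) (x := t2)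
      (g := fun p : ℝ × Cn n => u p.1 p.2) h1 h2
  have hdH : HasDerivAt (fun s => H (s, z2)) (deriv (fun s => u s z2) t2
      - ((-(n : ℝ)) * Real.log (Up.sqd a z2 + δ) + C₂) - ε) t2 := by
    have h1 := hdu.hasDerivAt
    have h2 : HasDerivAt (fun s : ℝ => (c - n * s) * Real.log (Up.sqd a z2 + δ) + (C₁ + C₂ * s))
        ((-(n : ℝ)) * Real.log (Up.sqd a z2 + δ) + C₂) t2 := by
      have e1 : HasDerivAt (fun s : ℝ => c - n * s) (-(n : ℝ)) t2 := by
        have := ((hasDerivAt_id t2).const_mul (n : ℝ)).const_sub c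
        simpa using this
      have e2 : HasDerivAt (fun s : ℝ => C₁ + C₂ * s) C₂ t2 := by
        have := ((hasDerivAt_id t2).const_mul C₂).const_add C₁
        simpa using this
      exact (e1.mul_const _).add e2
    have h3 : HasDerivAt (fun s : ℝ => ε * (s - s0)) ε t2 := by
      have := ((hasDerivAt_id t2).sub_const s0).const_mul ε
      simpa using this
    exact (h1.sub h2).sub h3
  have h0 := deriv_nonneg_of_max_left hts' hdH (fun x hx =>
    hmax ⟨⟨hx.1, hx.2.trans ht2.2⟩, hz2⟩)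
  rw [hflow t2 ht2T z2 hz2Ω] at h0
  have hlogc : Real.log (c - n * t2) ≤ Real.log c := by
    apply Real.log_le_log hκ
    have : 0 ≤ (n : ℝ) * t2 := mul_nonneg hn0 ht2T.1.le
    linarith
  have : (n : ℝ) * Real.log (c - n * t2) ≤ n * Real.log c := mul_le_mul_of_nonneg_left hlogc hn0
  nlinarith

end Pool.Agent.U574.CMA
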