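import Pool.Agent.U574.CMA.C

set_option autoImplicit false

open MeasureTheory Metric Set Filter Topology
open scoped ContDiff ComplexOrder

namespace Pool.Agent.U574.CMA
open Pool.Agent.H805R2 Pool.Agent.H805K

variable {n : ℕ}

lemma log_enorm_of_ne {E : Type*} [NormedAddCommGroup E] {x : E} (hx : x ≠ 0) :
    ENNReal.log ‖x‖ₑ = ((Real.log ‖x‖ : ℝ) : EReal) := by
  have h1 : ‖x‖ₑ = ENNReal.ofReal ‖x‖ := (ofReal_norm x).symm
  rw [h1, ENNReal.log_ofReal_of_pos (norm_pos_iff.2 hx)]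

lemma sing_le {γ C δ : ℝ} (hγ : 0 < γ) (hδ : 0 < δ) (a z : Cn n) :
    (γ : EReal) * ENNReal.log ‖z - a‖ₑ + (C : EReal)
      ≤ ((γ / 2 * Real.log (Up.sqd a z + δ) + C : ℝ) : EReal) := by
  by_cases hz : z = a
  · subst hz
    rw [sub_self, enorm_zero, ENNReal.log_zero, EReal.coe_mul_bot_of_pos hγ, EReal.bot_add]
    exact bot_le
  · have h0 : z - a ≠ 0 := sub_ne_zero.2 hz
    rw [log_enorm_of_ne h0, ← EReal.coe_mul, ← EReal.coe_add, EReal.coe_le_coe_iff]
    have h1 : Real.log (‖z - a‖ ^ 2) ≤ Real.log (Up.sqd a z + δ) := by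
      apply Real.log_le_log (by positivity)
      unfold Up.sqd
      linarith
    rw [Real.log_pow] at h1
    push_cast at h1
    nlinarith

theorem no_solution (hn : 0 < n) {Ω : Set (Cn n)} {T : ℝ} (hT : 0 < T) {u₀ : Cn n → EReal}
    {φ : Cn n → ℝ → ℝ} (hD : IsData Ω T u₀ φ) {a : Cn n} (ha : a ∈ Ω) {γ C : ℝ} (hγ : 0 < γ)
    (hsing : ∀ᶠ z in 𝓝 a, u₀ z ≤ (γ : EReal) * ENNReal.log ‖z - a‖ₑ + (C : EReal)) :
    ¬ ∃ u, IsSolution Ω T u₀ φ u := by
  rintro ⟨u, hu⟩
  obtain ⟨⟨hbd, hconn, ρ, hρ, hΩρ, -, -⟩, -, hφs, hagree⟩ := hD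
  have hΩ : IsOpen Ω := by
    rw [hΩρ]; exact isOpen_lt hρ.continuous continuous_const
  have hcK : IsCompact (closure Ω) :=
    Metric.isCompact_of_isClosed_isBounded isClosed_closure hbd.closure
  -- the upper bound
  have hφc : ContinuousOn (fun z => φ z 0) (closure Ω) := by
    have : ContinuousOn ((fun p : Cn n × ℝ => φ p.1 p.2) ∘ fun z => (z, (0 : ℝ))) (closure Ω) :=
      hφs.continuousOn.comp (continuous_id.prodMk continuous_const).continuousOn
        fun z hz => ⟨hz, ⟨le_rfl, hT⟩⟩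
    exact this
  obtain ⟨M, hM⟩ := hcK.exists_bound_of_continuousOn hφc
  have hsm : ∀ t ∈ Ioo 0 T, ContDiffOn ℝ ∞ (u t) Ω := by
    intro t ht
    have : ContDiffOn ℝ ∞ ((fun p : ℝ × Cn n => u p.1 p.2) ∘ fun z => (t, z)) Ω :=
      hu.smooth.comp (contDiff_const.prodMk contDiff_id).contDiffOn fun z hz => ⟨ht, hz⟩
    exact this
  have huc : ∀ t ∈ Ioo 0 T, ContinuousOn (u t) (closure Ω) := by
    intro t ht
    have : ContinuousOn ((fun p : ℝ × Cn n => u p.1 p.2) ∘ fun z => (t, z)) (closure Ω) :=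
      hu.continuousOn.comp (continuous_const.prodMk continuous_id).continuousOn fun z hz => ⟨ht, hz⟩
    exact this
  have huM : ∀ t ∈ Ioo 0 T, ∀ z ∈ closure Ω, u t z ≤ M := by
    intro t ht
    apply max_principle hn hΩ hbd (huc t ht) (hsm t ht) (hu.spsh t ht)
    intro z hz
    have h1 : φ z t = φ z 0 := by
      have e1 := hagree z hz t ⟨ht.1.le, ht.2⟩
      have e2 := hagree z hz 0 ⟨le_rfl, hT⟩
      rw [← e2] at e1
      exact EReal.coe_eq_coe_iff.1 e1
    rw [hu.boundary t ht z hz, h1]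
    exact (le_abs_self _).trans (hM z (frontier_subset_closure hz))
  -- the radii
  obtain ⟨R0, hR0, hR0s⟩ := Metric.nhds_basis_closedBall.mem_iff.1 (hsing.and (hΩ.mem_nhds ha))
  set R : ℝ := min R0 (1 / 2) with hR
  have hRpos : 0 < R := lt_min hR0 (by norm_num)
  have hRhalf : R ≤ 1 / 2 := min_le_right _ _
  have hRs : closedBall a R ⊆ closedBall a R0 := closedBall_subset_closedBall (min_le_left _ _)
  have hRΩ : closedBall a R ⊆ Ω := fun z hz => (hR0s (hRs hz)).2
  have hsR : ∀ z ∈ closedBall a R, u₀ z ≤ (γ : EReal) * ENNReal.log ‖z - a‖ₑ + (C : EReal) :=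
    fun z hz => (hR0s (hRs hz)).1
  set r : ℝ := R / 2 with hr
  have hrpos : 0 < r := by positivity
  have hrR : r < R := by rw [hr]; linarith
  have hrΩ : closedBall a r ⊆ Ω := (closedBall_subset_closedBall hrR.le).trans hRΩ
  set c : ℝ := γ / 2 with hc
  have hcpos : 0 < c := by positivity
  have hn' : (0 : ℝ) < n := by exact_mod_cast hn
  set t1 : ℝ := min T (c / n) / 2 with ht1
  have hmin : 0 < min T (c / n) := lt_min hT (by positivity)
  have ht1pos : 0 < t1 := by positivity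
  have ht1T : t1 < T := by
    have := min_le_left T (c / n)
    rw [ht1]; linarith
  have ht1c : n * t1 < c := by
    have h1 := min_le_right T (c / n)
    have h2 : t1 < c / n := by rw [ht1]; linarith
    rw [lt_div_iff₀ hn'] at h2
    linarith
  set C₁ : ℝ := max C (M - c * Real.log (r ^ 2)) with hC₁
  set C₂ : ℝ := max 0 (n * Real.log c) with hC₂
  have hC₁C : C ≤ C₁ := le_max_left _ _
  have hC₁M : M - c * Real.log (r ^ 2) ≤ C₁ := le_max_right _ _
  have hC₂0 : 0 ≤ C₂ := le_max_left _ _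
  have hC₂c : n * Real.log c ≤ C₂ := le_max_right _ _
  have hr1 : r ^ 2 ≤ 1 / 4 := by nlinarith
  have hlogr : Real.log (r ^ 2) ≤ 0 := Real.log_nonpos (by positivity) (by linarith)
  have key : ∀ δ : ℝ, 0 < δ → δ ≤ 1 / 2 →
      u t1 a ≤ (c - n * t1) * Real.log δ + (C₁ + C₂ * t1) + 1 + t1 := by
    intro δ hδ hδ2
    have hpos : ∀ z : Cn n, 0 < Up.sqd a z + δ := fun z => by linarith [sqd_nonneg' a z]
    have hNs : ContDiff ℝ ∞ fun y : Cn n => Up.sqd a y + δ := (Up.sqd_smooth a).add contDiff_const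
    have hLs : ContDiff ℝ ∞ fun y : Cn n => Real.log (Up.sqd a y + δ) :=
      hNs.log fun y => (hpos y).ne'
    have hib := initial_bound hΩ hT hsm (fun t ht z hz => (hu.spsh t ht z hz).posSemidef)
      (M := M) (fun t ht z hz => huM t ht z (subset_closure hz))
      (fun z hz => hu.initial z (subset_closure hz)) hrR hRΩ
      (g := fun z => γ / 2 * Real.log (Up.sqd a z + δ) + C)
      ((continuous_const.mul hLs.continuous).add continuous_const)
      (fun z hz => (hsR z hz).trans (sing_le hγ hδ a z)) (ε := 1) one_pos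
    obtain ⟨s0, hs0i, hs0⟩ := (hib.and (Ioo_mem_nhdsGT ht1pos)).exists
    have hlogneg : ∀ z ∈ closedBall a r, Real.log (Up.sqd a z + δ) ≤ 0 := by
      intro z hz
      apply Real.log_nonpos (hpos z).le
      have h1 : ‖z - a‖ ≤ r := by rwa [mem_closedBall, dist_eq_norm] at hz
      have h2 : ‖z - a‖ ^ 2 ≤ r ^ 2 := pow_le_pow_left₀ (norm_nonneg _) h1 2
      unfold Up.sqd
      linarith
    have hcomp := compare_step hΩ hu.smooth hu.spsh hu.flow hrΩ (c := c) (δ := δ) (C₁ := C₁)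
      (C₂ := C₂) (ε := 1) hs0.1 hs0.2 ht1T ht1c hδ hC₂c one_pos ?_ ?_
    · have h1 := hcomp t1 ⟨hs0.2.le, le_rfl⟩ a (mem_closedBall_self hrpos.le)
      have h2 : Up.sqd a a + δ = δ := by simp [Up.sqd]
      rw [h2] at h1
      linarith [hs0.1]
    · intro z hz
      have h1 := hs0i z hz
      have h2 := hlogneg z hz
      have h3 : 0 ≤ C₂ * s0 := mul_nonneg hC₂0 hs0.1.le
      have h4 : 0 ≤ (n : ℝ) * s0 * (-Real.log (Up.sqd a z + δ)) :=
        mul_nonneg (mul_nonneg hn'.le hs0.1.le) (by linarith)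
      simp only [← hc] at h1
      nlinarith
    · intro t ht z hz
      have h1 : u t z ≤ M := huM t ⟨hs0.1.trans_le ht.1, ht.2.trans_lt ht1T⟩ z
        (subset_closure (hrΩ (sphere_subset_closedBall hz)))
      have h2 : Up.sqd a z = r ^ 2 := by
        unfold Up.sqd
        rw [mem_sphere, dist_eq_norm] at hz
        rw [hz]
      have htpos : 0 < t := hs0.1.trans_le ht.1
      have h3 : 0 ≤ c - n * t := by
        have : (n : ℝ) * t ≤ n * t1 := mul_le_mul_of_nonneg_left ht.2 hn'.le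
        linarith
      have h4 : Real.log (r ^ 2) ≤ Real.log (r ^ 2 + δ) :=
        Real.log_le_log (by positivity) (by linarith)
      have h5 : (c - n * t) * Real.log (r ^ 2) ≤ (c - n * t) * Real.log (r ^ 2 + δ) :=
        mul_le_mul_of_nonneg_left h4 h3
      have h6 : 0 ≤ (n : ℝ) * t * (-Real.log (r ^ 2)) :=
        mul_nonneg (mul_nonneg hn'.le htpos.le) (by linarith)
      have h7 : 0 ≤ C₂ * t := mul_nonneg hC₂0 htpos.le
      rw [h2]
      nlinarith
  -- contradiction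
  set κ : ℝ := c - n * t1 with hκ
  have hκpos : 0 < κ := by rw [hκ]; linarith
  set B : ℝ := (C₁ + C₂ * t1) + 1 + t1 with hB
  set L : ℝ := max 1 ((B - u t1 a + 1) / κ) with hL
  have hL1 : 1 ≤ L := le_max_left _ _
  have hL2 : (B - u t1 a + 1) / κ ≤ L := le_max_right _ _
  rw [div_le_iff₀ hκpos] at hL2
  have hexp : Real.exp (-L) ≤ 1 / 2 := by
    have h1 : Real.exp (-L) ≤ Real.exp (-1) := Real.exp_le_exp.2 (by linarith)
    have h2 : Real.exp (-1) ≤ 1 / 2 := by
      rw [Real.exp_neg, inv_eq_one_div]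
      apply one_div_le_one_div_of_le (by norm_num)
      linarith [Real.add_one_le_exp (1 : ℝ)]
    linarith
  have h1 := key (Real.exp (-L)) (Real.exp_pos _) hexp
  rw [Real.log_exp] at h1
  nlinarith

end Pool.Agent.U574.CMA
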