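import Pool.Agent.U574.CMA.D

set_option autoImplicit false

open MeasureTheory Metric Set Filter Topology
open scoped ContDiff ComplexOrder

namespace Pool.Agent.U574.CMA
open Pool.Agent.H805R2 Pool.Agent.H805K

variable {n : ℕ}

/-- Dini's lemma, in the form needed -/
lemma dini_lt' {E : Type*} [TopologicalSpace E] (v : ℕ → E → ℝ) (g : E → ℝ) {K : Set E}
    (hK : IsCompact K) (hc : ∀ k, ContinuousOn (v k) K) (hanti : ∀ z ∈ K, Antitone fun k => v k z)
    (hg : ContinuousOn g K) (h : ∀ z ∈ K, ∃ k, v k z < g z) : ∃ k0, ∀ z ∈ K, v k0 z < g z := by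
  have := hK.induction_on (p := fun S => ∃ k0, ∀ k ≥ k0, ∀ z ∈ S, z ∈ K → v k z < g z)
    ⟨0, fun k _ z hz => absurd hz (notMem_empty z)⟩
    (fun S T hST ⟨k0, hk0⟩ => ⟨k0, fun k hk z hz => hk0 k hk z (hST hz)⟩)
    (fun S T ⟨k0, hk0⟩ ⟨k1, hk1⟩ => ⟨max k0 k1, fun k hk z hz => by
      rcases hz with hz | hz
      · exact hk0 k (le_trans (le_max_left _ _) hk) z hz
      · exact hk1 k (le_trans (le_max_right _ _) hk) z hz⟩)
    (by
      intro z hz
      obtain ⟨k, hk⟩ := h z hz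
      have hopen : ∀ᶠ y in 𝓝[K] z, v k y < g y := by
        have h1 : Tendsto (fun y => g y - v k y) (𝓝[K] z) (𝓝 (g z - v k z)) :=
          (hg z hz).sub (hc k z hz)
        have h2 := h1.eventually (lt_mem_nhds (by linarith : 0 < g z - v k z))
        filter_upwards [h2] with y hy
        linarith
      refine ⟨{y | v k y < g y}, hopen, k, fun k' hk' y hy hyK => ?_⟩
      exact lt_of_le_of_lt (hanti y hyK hk') hy)
  obtain ⟨k0, hk0⟩ := this
  exact ⟨k0, fun z hz => hk0 k0 le_rfl z hz hz⟩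

/-- a decreasing limit of smooth psh functions is psh -/
theorem psh_of_decr' {Ω : Set (Cn n)} (hΩ : IsOpen Ω) {u : ℕ → Cn n → ℝ} {uinf : Cn n → EReal}
    (hu : ∀ k, ContDiff ℝ ∞ (u k)) (hp : ∀ k, ∀ z ∈ Ω, (hess (u k) z).PosSemidef)
    (hanti : ∀ z ∈ Ω, Antitone fun k => u k z)
    (hle : ∀ z ∈ Ω, ∀ k, uinf z ≤ ((u k z : ℝ) : EReal))
    (hlim : ∀ z ∈ Ω, ∀ c : ℝ, uinf z < (c : EReal) → ∃ k, u k z < c) : PSH Ω uinf := by
  refine ⟨?_, fun z hz => (hle z hz 0).trans_lt (EReal.coe_lt_top _), ?_⟩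
  · intro z hz c hc
    obtain ⟨c', hc1, hc2⟩ := EReal.lt_iff_exists_real_btwn.1 hc
    obtain ⟨k, hk⟩ := hlim z hz c' hc1
    have h2 : ∀ᶠ y in 𝓝[Ω] z, u k y < c' :=
      (((hu k).continuous.tendsto z).eventually (gt_mem_nhds hk)).filter_mono nhdsWithin_le_nhds
    filter_upwards [h2, self_mem_nhdsWithin] with y hy hyΩ
    exact ((hle y hyΩ k).trans_lt (EReal.coe_lt_coe_iff.2 hy)).trans hc2
  · intro a b hab φ hφ hφle
    have haΩ : a ∈ Ω := by simpa using hab 0 (by simp)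
    have hmem : ∀ ζ ∈ sphere (0 : ℂ) 1, a + ζ • b ∈ Ω := fun ζ hζ =>
      hab ζ (mem_sphere_zero_iff_norm.1 hζ).le
    have key : ∀ ε : ℝ, 0 < ε → uinf a ≤ ((Real.circleAverage φ 0 1 + ε : ℝ) : EReal) := by
      intro ε hε
      obtain ⟨k0, hk0⟩ := dini_lt' (fun k (ζ : ℂ) => u k (a + ζ • b))
        (fun ζ => φ ζ + ε) (isCompact_sphere (0 : ℂ) 1)
        (fun k => ((hu k).continuous.comp (by fun_prop)).continuousOn)
        (fun ζ hζ => hanti _ (hmem ζ hζ))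
        (hφ.add continuous_const).continuousOn
        (fun ζ hζ => by
          have h1 := hφle ζ (mem_sphere_zero_iff_norm.1 hζ)
          exact hlim _ (hmem ζ hζ) _ (h1.trans_lt (EReal.coe_lt_coe_iff.2 (by linarith))))
      have h2 := (psh_of_smooth hΩ (hu k0) (hp k0)).2.2 a b hab (fun ζ => φ ζ + ε)
        (hφ.add continuous_const) (fun ζ hζ => EReal.coe_le_coe_iff.2
          (hk0 ζ (mem_sphere_zero_iff_norm.2 hζ)).le)
      have h5 : Real.circleAverage (fun ζ => φ ζ + ε) 0 1 = Real.circleAverage φ 0 1 + ε := by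
        rw [show (fun ζ => φ ζ + ε) = φ + fun _ => ε from rfl, Real.circleAverage_add,
          Real.circleAverage_const]
        · exact hφ.continuousOn.circleIntegrable'
        · exact continuous_const.continuousOn.circleIntegrable'
      rw [h5] at h2
      exact (hle a haΩ k0).trans h2
    by_contra hcon
    rw [not_le] at hcon
    obtain ⟨c', hc1, hc2⟩ := EReal.lt_iff_exists_real_btwn.1 hcon
    have h1 := EReal.coe_lt_coe_iff.1 hc1
    have h2 := key (c' - Real.circleAverage φ 0 1) (by linarith)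
    rw [add_sub_cancel] at h2
    exact absurd (h2.trans_lt hc2) (lt_irrefl _)

lemma sqd_zero_eq : (Up.sqd (0 : Cn n)) = fun y => ∑ j, ‖y j‖ ^ 2 := by
  funext y
  unfold Up.sqd
  rw [sub_zero, EuclideanSpace.norm_sq_eq]

lemma coord_hol (j : Fin n) : ContDiff ℂ ∞ fun y : Cn n => y j :=
  (EuclideanSpace.proj j : Cn n →L[ℂ] ℂ).contDiff

lemma fderiv_coord (j : Fin n) (z ζ : Cn n) : fderiv ℂ (fun y : Cn n => y j) z ζ = ζ j := by
  have : HasFDerivAt (fun y : Cn n => y j) (EuclideanSpace.proj j : Cn n →L[ℂ] ℂ) z :=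
    (EuclideanSpace.proj j : Cn n →L[ℂ] ℂ).hasFDerivAt
  rw [this.fderiv]
  rfl

lemma norm_dl_sqd (z ζ : Cn n) : ‖dl (Up.sqd 0) z ζ‖ ≤ ‖z‖ * ‖ζ‖ := by
  rw [sqd_zero_eq, dl_sum Finset.univ (fun j _ => nsq_sm (coord_hol j))]
  have h1 : ∑ j, dl (fun y : Cn n => ‖y j‖ ^ 2) z ζ = inner ℂ z ζ := by
    rw [PiLp.inner_apply]
    apply Finset.sum_congr rfl
    intro j _
    rw [dl_nsq (coord_hol j), fderiv_coord]
    simp [mul_comm]
  rw [h1]
  exact norm_inner_le_norm z ζ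

lemma levi_log_sqd_nonneg {δ : ℝ} (hδ : 0 < δ) (z ζ : Cn n) :
    0 ≤ levi (fun y => 1 / 2 * Real.log (Up.sqd 0 y + δ)) z ζ := by
  have hN : ContDiff ℝ ∞ fun y => Up.sqd (0 : Cn n) y + δ := (Up.sqd_smooth 0).add contDiff_const
  have hpos : ∀ y : Cn n, 0 < Up.sqd 0 y + δ := fun y => by
    linarith [sqd_nonneg' 0 y]
  have hL : ContDiff ℝ ∞ fun y => Real.log (Up.sqd (0 : Cn n) y + δ) := hN.log fun y => (hpos y).ne'
  rw [levi_const_mul' _ hL, levi_log hN z ζ (hpos z), levi_add' (Up.sqd_smooth 0) contDiff_const,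
    Up.sqd_levi, levi_const, dl_add (Up.sqd_smooth 0) contDiff_const, dl_const, add_zero, add_zero]
  have h1 := norm_dl_sqd z ζ
  have h2 : ‖dl (Up.sqd 0) z ζ‖ ^ 2 ≤ (‖z‖ * ‖ζ‖) ^ 2 := pow_le_pow_left₀ (norm_nonneg _) h1 2
  have h3 : Up.sqd 0 z = ‖z‖ ^ 2 := by unfold Up.sqd; rw [sub_zero]
  have hp := hpos z
  rw [h3] at hp ⊢
  have h4 : ‖dl (Up.sqd 0) z ζ‖ ^ 2 / (‖z‖ ^ 2 + δ) ^ 2 ≤ ‖ζ‖ ^ 2 / (‖z‖ ^ 2 + δ) := by
    rw [div_le_div_iff₀ (by positivity) hp]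
    have h5 : ‖z‖ ^ 2 * ‖ζ‖ ^ 2 ≤ (‖z‖ ^ 2 + δ) * ‖ζ‖ ^ 2 :=
      mul_le_mul_of_nonneg_right (by linarith) (by positivity)
    calc ‖dl (Up.sqd 0) z ζ‖ ^ 2 * (‖z‖ ^ 2 + δ) ≤ ((‖z‖ ^ 2 + δ) * ‖ζ‖ ^ 2) * (‖z‖ ^ 2 + δ) := by
          apply mul_le_mul_of_nonneg_right _ hp.le
          calc ‖dl (Up.sqd 0) z ζ‖ ^ 2 ≤ (‖z‖ * ‖ζ‖) ^ 2 := h2
            _ = ‖z‖ ^ 2 * ‖ζ‖ ^ 2 := by ring
            _ ≤ _ := h5
      _ = ‖ζ‖ ^ 2 * (‖z‖ ^ 2 + δ) ^ 2 := by ring
  linarith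

theorem psh_log_norm : PSH (univ : Set (Cn n)) (fun z => ENNReal.log ‖z‖ₑ) := by
  have hδ : ∀ k : ℕ, (0 : ℝ) < 1 / ((k : ℝ) + 1) := fun k => by positivity
  have hpos : ∀ (k : ℕ) (y : Cn n), 0 < Up.sqd 0 y + 1 / ((k : ℝ) + 1) := fun k y => by
    linarith [sqd_nonneg' 0 y, hδ k]
  have hsm : ∀ k : ℕ, ContDiff ℝ ∞ fun y : Cn n => 1 / 2 * Real.log (Up.sqd 0 y + 1 / ((k : ℝ) + 1)) :=
    fun k => contDiff_const.mul (((Up.sqd_smooth 0).add contDiff_const).log fun y => (hpos k y).ne')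
  apply psh_of_decr' isOpen_univ (u := fun k y => 1 / 2 * Real.log (Up.sqd 0 y + 1 / ((k : ℝ) + 1)))
  · exact hsm
  · intro k z _
    exact (hess_posSemidef_iff ((hsm k).of_le ss_le) z).2 fun ζ => levi_log_sqd_nonneg (hδ k) z ζ
  · intro z _ k l hkl
    have h1 : 1 / ((l : ℝ) + 1) ≤ 1 / ((k : ℝ) + 1) := Nat.one_div_le_one_div hkl
    have h2 := Real.log_le_log (hpos l z) (by linarith : Up.sqd 0 z + 1 / ((l : ℝ) + 1)
      ≤ Up.sqd 0 z + 1 / ((k : ℝ) + 1))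
    simp only
    linarith
  · intro z _ k
    have h := sing_le (γ := 1) (C := 0) one_pos (hδ k) 0 z
    rw [sub_zero] at h
    simpa using h
  · intro z _ c hc
    by_cases hz : z = 0
    · subst hz
      obtain ⟨k, hk⟩ := exists_nat_one_div_lt (Real.exp_pos (2 * c))
      refine ⟨k, ?_⟩
      have h0 : Up.sqd (0 : Cn n) 0 = 0 := by simp [Up.sqd]
      rw [h0, zero_add]
      have h1 : Real.log (1 / ((k : ℝ) + 1)) < 2 * c := by
        rw [Real.log_lt_iff_lt_exp (hδ k)]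
        exact hk
      linarith
    · rw [log_enorm_of_ne hz, EReal.coe_lt_coe_iff] at hc
      have hz0 : 0 < ‖z‖ := norm_pos_iff.2 hz
      have hlt : ‖z‖ ^ 2 < Real.exp (2 * c) := by
        have h1 : Real.log (‖z‖ ^ 2) < 2 * c := by
          rw [Real.log_pow]; push_cast; linarith
        rwa [Real.log_lt_iff_lt_exp (by positivity)] at h1
      obtain ⟨k, hk⟩ := exists_nat_one_div_lt (sub_pos.2 hlt)
      refine ⟨k, ?_⟩
      have h0 : Up.sqd (0 : Cn n) z = ‖z‖ ^ 2 := by simp [Up.sqd]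
      have h1 : Real.log (Up.sqd 0 z + 1 / ((k : ℝ) + 1)) < 2 * c := by
        rw [Real.log_lt_iff_lt_exp (hpos k z), h0]
        linarith
      linarith

/-! ### the explicit data -/

lemma ball_eq : (ball (0 : Cn n) 1) = {z | Up.sqd 0 z - 1 < 0} := by
  ext z
  have h0 : Up.sqd (0 : Cn n) z = ‖z‖ ^ 2 := by simp [Up.sqd]
  rw [mem_ball_zero_iff, mem_ofPred_eq, h0]
  constructor
  · intro h
    have := norm_nonneg z
    nlinarith
  · intro h
    have := norm_nonneg z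
    nlinarith

lemma hess_sub_one (z : Cn n) : hess (fun y => Up.sqd (0 : Cn n) y - 1) z = hess (Up.sqd 0) z := by
  have h1 : ∀ k, wdb k (fun w : Cn n => ((Up.sqd (0 : Cn n) w - 1 : ℝ) : ℂ))
      = wdb k fun w : Cn n => ((Up.sqd (0 : Cn n) w : ℝ) : ℂ) := by
    intro k
    funext w
    simp only [wdb]
    have e : (fun w : Cn n => ((Up.sqd (0 : Cn n) w - 1 : ℝ) : ℂ))
        = fun w : Cn n => ((Up.sqd (0 : Cn n) w : ℝ) : ℂ) - 1 := by
      funext w; push_cast; rfl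
    rw [e, fderiv_sub_const]
  ext j k
  simp only [hess, Matrix.of_apply, wd]
  rw [h1 k]

theorem ball_spc : IsStrictlyPseudoconvex (ball (0 : Cn n) 1) := by
  refine ⟨isBounded_ball, ?_, fun z => Up.sqd 0 z - 1, (Up.sqd_smooth 0).sub contDiff_const,
    ball_eq, ?_, ?_⟩
  · exact ⟨⟨0, mem_ball_self one_pos⟩, (convex_ball (0 : Cn n) 1).isPreconnected⟩
  · intro z _
    rw [hess_sub_one]
    exact TLD.sqd_posDef 0 z
  · intro z hz h0
    rw [frontier_ball (0 : Cn n) one_ne_zero, mem_sphere_zero_iff_norm] at hz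
    have hd : DifferentiableAt ℝ (fun z : Cn n => Up.sqd 0 z - 1) z :=
      ((Up.sqd_smooth 0).sub contDiff_const).contDiffAt.differentiableAt (by simp)
    have h1 : HasDerivAt (fun s : ℝ => s • z) z 1 := by
      simpa using (hasDerivAt_id (1 : ℝ)).smul_const z
    have h2 : HasDerivAt (fun s : ℝ => Up.sqd (0 : Cn n) (s • z) - 1)
        (fderiv ℝ (fun z : Cn n => Up.sqd 0 z - 1) z z) 1 := by
      have hd' : HasFDerivAt (fun z : Cn n => Up.sqd 0 z - 1)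
          (fderiv ℝ (fun z : Cn n => Up.sqd 0 z - 1) z) ((1 : ℝ) • z) := by
        rw [one_smul]; exact hd.hasFDerivAt
      exact hd'.comp_hasDerivAt (1 : ℝ) h1
    have h3 : HasDerivAt (fun s : ℝ => Up.sqd (0 : Cn n) (s • z) - 1) 2 1 := by
      have e : (fun s : ℝ => Up.sqd (0 : Cn n) (s • z) - 1) = fun s : ℝ => s ^ 2 - 1 := by
        funext s
        unfold Up.sqd
        rw [sub_zero, norm_smul, hz, mul_one, Real.norm_eq_abs, sq_abs]
      rw [e]
      simpa using ((hasDerivAt_pow 2 (1 : ℝ)).sub_const 1)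
    have h4 := h2.unique h3
    rw [h0] at h4
    norm_num at h4

theorem ball_data (T : ℝ) :
    IsData (ball (0 : Cn n) 1) T (fun z => ENNReal.log ‖z‖ₑ) (fun _ _ => 0) where
  domain := ball_spc
  psh := ⟨univ, isOpen_univ, subset_univ _, psh_log_norm⟩
  smooth := contDiffOn_const
  agree := by
    intro z hz t _
    rw [frontier_ball (0 : Cn n) one_ne_zero, mem_sphere_zero_iff_norm] at hz
    have hz0 : z ≠ 0 := by
      intro h; rw [h, norm_zero] at hz; exact zero_ne_one hz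
    rw [log_enorm_of_ne hz0, hz, Real.log_one]

end Pool.Agent.U574.CMA
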